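import Pool.Agent.Zk51.TD.Main

/-!
# The asymptotic defect of Beilinson's conjecture for higher Chow groups over finite fields

Let `X` be ANY smooth projective variety over the finite field `𝔽`. Let `b` be its total Betti number and
`ρ(n)` the rank of the group of all cycles on `X^n` modulo numerical equivalence. For each variety `S` over
`𝔽` (smooth or not, proper or not) consider the class maps

  `c : H_i^M(S × X^n, ℚ(j)) ⊗ ℚ_ℓ → H_i(S × X^n, ℚ_ℓ(j))_1`

for all `i` and `j`, from motivic (Borel-Moore) homology to the generalised eigenspace of the
Frobenius with eigenvalue one on `ℓ`-adic homology. If `S` is smooth of dimension `e` then these are the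
maps `c^{i',j'}` of the question for `S × X^n`, with `i' = 2 (e + n dim X) - i`, `j' = e + n dim X - j`;
their images are in the spaces of invariants. Let, as numbers or infinity,

* `κ(n)` be the sum of the dimensions of the kernels of all these maps, and
* `γ(n)` the sum of the dimensions of all their cokernels.

**Theorem.** No conjecture is assumed.

(1) `κ(n) / ρ(n)` and `γ(n) / ρ(n)` converge, for `n → ∞`, to natural numbers or infinity, `N'(S)` and
`N''(S)`. `N'(S) = 0` if and only if all class maps of all `S × X^n` are injective (for smooth `S`, this is
Q1 for all `S × X^n`). `N''(S) = 0` if and only if they are all surjective.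

(2) (Triangle inequalities.) Let `N(S) = N'(S) + N''(S)` be the asymptotic defect of `S`. If `Z` is a closed
subvariety of `S` with complement `U` then

  `N(S) ≤ N(Z) + N(U)`, `N(Z) ≤ N(S) + N(U)`, `N(U) ≤ N(S) + N(Z)`.

In particular `N(S) = N(U)` if `N(Z) = 0`; if the defects of two of `Z`, `S`, `U` are finite then so is
the third; and the defect of each variety is at most the sum of the defects of the strata of a
stratification. (That the conjecture for two of the three implies it for the third is well known; here
is a quantitative form, which is meaningful although nothing is known.)

(3) If `N'(S)` is finite then there are finitely many numerical motives `M_s`, direct summands of the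
numerical motives of powers of `X`, with sum of the ranks `N'(S)`, such that `κ(n)` is the dimension of
`⨁ Hom(M_s, h(X^n))` for all `n`; and compositions of `N'(S)` numerically trivial correspondences between
powers of `X` act as zero on all kernels. The same holds for `N''(S)`, `γ(n)` and the cokernels.

(4) (Zero-one law.) If the numerical motive of each `X^n` is a direct summand of a sum of numerical
motives of varieties `Z` such that the class maps of `S × Z` are injective (surjective) then `N'(S)`
(`N''(S)`) is `0` or infinity.

(5) (One inequality.) If `κ(n) < ρ(n) / 2` for one `n ≥ 128 (m + 1)^2 b^(2 m + 6)` then Q1 holds for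
`S × X^m` (the class maps are injective); similarly for `γ` and surjectivity.

(6) (Growth gap.) If Q1 fails for one `S × X^(2 m)`, in one degree, then
`κ(2 n) ≥ b^(2 n) / (2 (n + 1)^(b^2))` for ALL `n ≥ 128 (m + 1)^2 b^(4 m + 12)`, where `b^(2 n)` is the total Betti
number of `X^(2 n)`; similarly for `γ`.

So each counterexample to Q1 forces very many counterexamples, and the defect of all varieties is
controlled by that of the smooth projective ones.

The setting. `Λ` is `ℚ_ℓ`, `C` is the category of the smooth projective varieties over `𝔽` with the
groups `CH^*(X × Y) ⊗ ℚ_ℓ` (all codimensions) as morphisms, `T = X`, which is self-dual, `tp T n = X^n`,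
`tp (T ⊗ T^∨) n = X^(2 n)`, and `R` is the `ℓ`-adic cohomology with coefficients extended to an algebraic
closure of `ℚ_ℓ`. `IsPow` says that the endomorphisms of the unit object are the elements of `ℚ_ℓ`, that the
sign property `C⁺` holds for `X` (Katz and Messing) and that the unit object is a direct summand of
`T` (a zero-cycle of nonzero degree). `ClassMaps` are the data for a variety `S`; the hypotheses
`IsClassMaps` are the direct sum decompositions and the compatibility with the action of the
correspondences (pull back to `S × Y × Z`, multiply with a class of the smooth variety `Y × Z`,
push forward). `IsTriangle` are the localisation sequences, on the sums of all groups; generalised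
eigenspaces are exact functors.

Idea of the proof. Kernels and cokernels are additive functors on `C`, to which the law of the
dimensions of the values of additive functors on the powers of an object applies
(`Pool.Agent.N64.AF`, helper64 and others). A map between exact triangles has three defects
(dimension of the kernel plus dimension of the cokernel), and each of them is at most the sum of the
other two (`Pool.Agent.Zk51.TD.defect_le`); this inequality passes to the limits.
-/

set_option autoImplicit false

namespace Pool.Agent.Results.MP_b52861_ag.AsymptoticDefect

open CategoryTheory MonoidalCategory
open Pool.Agent.Y112.SR Pool.Agent.Y112.KD Pool.Agent.N64.AF Pool.Agent.Zk51.TD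

universe v u w t x

/-- The asymptotic defect of the class maps of the products of arbitrary varieties with all powers
of a smooth projective variety. -/
theorem result {C : Type u} [Category.{v} C] [Preadditive C] [MonoidalCategory C]
    [MonoidalPreadditive C] [SymmetricCategory C] [RightRigidCategory C]
    {Λ : Type t} [Field Λ] [CharZero Λ] [Linear Λ C] [MonoidalLinear Λ C]
    {K : Type w} [Field K] [IsAlgClosed K] [Algebra Λ K] (R : SuperRealisation C K)
    (T : C) [ExactPairing T T] (h : IsPow Λ R T) :
    (∃ N' N'' : ClassMaps.{v, u, t, x} Λ C → ℕ∞, ClassMaps.Laws R T N' N'') ∧
    ∀ D : ClassMaps.{v, u, t, x} Λ C, D.IsClassMaps → D.Criterion R T ∧ D.GrowthGap R T :=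
  ⟨ClassMaps.laws h, fun _ hD => ⟨hD.criterion h, hD.gap h.real h.cplus (bt_pos h)⟩⟩

end Pool.Agent.Results.MP_b52861_ag.AsymptoticDefect
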