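import Pool.Agent.R937.PZ.Mot
import Pool.Agent.X303.RegDefs

/-!
# Beilinson's conjecture for the higher Chow groups of the smooth varieties generated by abelian
# varieties of dimension at most five, and by products of elliptic curves, abelian surfaces and
# non-ordinary threefolds

Over an algebraic closure of the field with `p` elements each abelian variety is isogenous to the
reduction of an abelian variety of CM type (Honda, Tate). So an abelian variety over the field with
`p ^ a` elements is modelled by `RedAV`: a finite product of CM types `(E i, Φ i)` with Weil numbers
`π i ∈ E i` that satisfy the formula of Shimura and Taniyama; its cohomology of degree `n`, with
coefficients in an algebraically closed field `Ω`, consists of the alternating `n`-forms on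
`Ω ⊗ H_1`, on which the Frobenius endomorphism acts by `π`.

We consider (`IsGoodAVP`) the abelian varieties `Y` of the following kinds:

* all abelian varieties of dimension at most five;
* the abelian varieties that are isogenous, over an algebraic closure, to a product of a supersingular
  abelian variety of any dimension and of abelian varieties of dimension at most three (any number, any
  multiplicity), such that any two factors of dimension three whose CM fields have the same Galois
  closure satisfy one of the following: their fields are Galois over `ℚ`; one of them is supersingular;
  they are isogenous; neither of them is ordinary and their `p`-ranks are not `{1, 2}`.

So `Y` may be any product of elliptic curves, of abelian surfaces, and of abelian threefolds that all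
have `p`-rank two, or that all have `p`-rank zero or one.

`Homology Ω V` are data of motivic homology `M X n j = H_n^M(X, ℚ(j)) = CH_j(X, n - 2 j) ⊗ ℚ` (higher
Chow groups) and of `ℓ`-adic homology `E X n j = H_n(X, ℚ_ℓ(j))` (coefficients extended to `Ω`) of
schemes `X : V` of finite type over finite fields, with the Frobenius and the regulator. Let `𝒢`
(`Generated`) be the smallest class of schemes that contains those with the homology groups of the
abelian varieties above, that is closed under direct summands of finite sums of twists of motives,
and that contains all of a closed subscheme `Z` of `X`, `X` and `X ∖ Z` if it contains two of them.
For example, it contains all products of curves of genus at most two and of open subsets of such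
curves, symmetric powers of such products, the varieties dominated by an abelian variety of dimension
at most five whose motive is a direct summand, and the open and the singular varieties that are
stratified by such varieties.

**Theorem.** For all smooth `X` in `𝒢` of pure dimension `d`, not necessarily projective, and all
integers `i` and `j` the cycle class map
`c^(i, j) : CH^j(X, 2 j - i) ⊗ Ω = H^i(X, ℚ(j)) ⊗ Ω → H^i(X, ℚ_ℓ(j)) ⊗ Ω`, which is the regulator on
`M X (2 d - i) (d - j)`, is injective (`RegInjective`).

The result of the starting files for this problem (`AlmostAllSlopeTypes`) is about almost all slope
types of CM fields of large degree; here there are no exceptions, and the dimensions are small.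

Properties of the theory of cycles that are used for the abelian varieties `Y` (`IsChowS`,
`IsMotivic`): Poincaré duality, the formal properties of correspondences, the nilpotence of
homologically trivial correspondences (Kimura), the operation of the Frobenius endomorphism on higher
Chow groups, the vanishing of the higher rational `K`-groups of a finite field (Quillen), and the
algebraicity of the classes in the system `AlgS` which is generated by Tate classes of degree two, by
reductions of split Weil classes on abelian fourfolds and sixfolds of CM type and by reductions of the
Hodge classes of degree four on products of elliptic curves and abelian surfaces of CM type (theorems
of Tate, Markman and Ramón Marí). All Tate classes on all powers of `Y` are in `AlgS`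
(`Pool.Agent.R937.PG.main`). The passage from the Tate conjecture to all degrees and to the class `𝒢` is
due to Soulé, Geisser, Kahn and Jannsen.
-/

set_option autoImplicit false

namespace Pool.Agent.Results.MP_b52861_ag.NonOrdinaryThreefolds

open Pool.Agent.W495.TA Pool.Agent.W495.FM Pool.Agent.R937.PG Pool.Agent.X303.TBDual

/-- The maps `c^(i, j)` are injective for all `i` and `j` and all smooth members `X`, of pure dimension
`d`, of the class generated by the abelian varieties of dimension at most five and by the products of
elliptic curves, abelian surfaces and non-ordinary threefolds. -/
theorem result (p : ℕ) [Fact p.Prime] (ν : PadicAlgCl p ≃+* ℂ) (Ω : Type) [Field Ω]
    [IsAlgClosed Ω] [CharZero Ω] (V : Type) (T : Homology Ω V) (hT : IsHomology T) (X : V)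
    (hX : Generated T (IsGoodAbelianP p ν T) X) (d i j : ℤ) :
    RegInjective T X (2 * d - i) (d - j) :=
  (tb_goodP hT hX _ _).2.1

end Pool.Agent.Results.MP_b52861_ag.NonOrdinaryThreefolds
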